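import Pool.Agent.R333.SubR

/-! Digits 1, 2 and divisibility by `2 ^ n`: the subspace theorem part. -/

set_option autoImplicit false

open Finset Filter Topology

namespace Pool.Agent.W2helper19.DG

/-- `T` is small, prime to 5, and `2 ^ n` divides `T` plus the sum of few multiples of powers of ten -/
def Rep (m : ℕ → ℕ) {s : ℕ} (lam : Fin s → ℤ) (n : ℕ) (T : ℤ) (e : Fin s → ℕ) : Prop :=
  |(T : ℝ)| ≤ 2 * 10 ^ (m n) ∧ ¬ (5 : ℤ) ∣ T ∧ (∀ i, m n ≤ e i ∧ e i ≤ n) ∧
    (2 : ℤ) ^ n ∣ T + ∑ i, lam i * 10 ^ (e i)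

/-- a vanishing sum of multiples of powers of ten has two close exponents -/
lemma close {s : ℕ} (y : Fin s → ℤ) (hy : y ≠ 0) (c : ℕ) (hc : ∑ i, |y i| < 10 ^ c) (e : Fin s → ℕ)
    (h : ∑ i, y i * 10 ^ (e i) = 0) : ∃ i j, i ≠ j ∧ e i ≤ e j ∧ e j ≤ e i + c := by
  classical
  obtain ⟨i0, hi0⟩ := Function.ne_iff.1 hy
  obtain ⟨j, hj, hjmax⟩ := (univ.filter (fun i => y i ≠ 0)).exists_max_image e
    ⟨i0, by simpa using hi0⟩
  have hj0 : y j ≠ 0 := by simpa using hj
  by_contra hcon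
  push Not at hcon
  have h1 : ∀ i, i ≠ j → |y i * 10 ^ (e i)| * 10 ^ c ≤ |y i| * 10 ^ (e j) := by
    intro i hij
    by_cases hyi : y i = 0
    · simp [hyi]
    · have h2 : e i ≤ e j := hjmax i (by simpa using hyi)
      have h3 := hcon i j hij h2
      rw [abs_mul, abs_of_pos (show (0 : ℤ) < 10 ^ (e i) by positivity), mul_assoc, ← pow_add]
      exact mul_le_mul_of_nonneg_left (pow_le_pow_right₀ (by norm_num) h3.le) (abs_nonneg _)
  have h4 : |y j * 10 ^ (e j)| ≤ ∑ i ∈ univ.erase j, |y i * 10 ^ (e i)| := by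
    have h5 : y j * 10 ^ (e j) = -∑ i ∈ univ.erase j, y i * 10 ^ (e i) := by
      rw [← Finset.add_sum_erase univ _ (Finset.mem_univ j)] at h
      linarith
    rw [h5, abs_neg]
    exact Finset.abs_sum_le_sum_abs _ _
  have h6 : (10 : ℤ) ^ (e j) * 10 ^ c ≤ (∑ i, |y i|) * 10 ^ (e j) := by
    calc (10 : ℤ) ^ (e j) * 10 ^ c ≤ |y j * 10 ^ (e j)| * 10 ^ c := by
          apply mul_le_mul_of_nonneg_right _ (by positivity)
          rw [abs_mul, abs_of_pos (show (0 : ℤ) < 10 ^ (e j) by positivity)]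
          have : 1 ≤ |y j| := Int.one_le_abs hj0
          nlinarith [show (0 : ℤ) < 10 ^ (e j) by positivity]
      _ ≤ (∑ i ∈ univ.erase j, |y i * 10 ^ (e i)|) * 10 ^ c :=
          mul_le_mul_of_nonneg_right h4 (by positivity)
      _ = ∑ i ∈ univ.erase j, |y i * 10 ^ (e i)| * 10 ^ c := Finset.sum_mul _ _ _
      _ ≤ ∑ i ∈ univ.erase j, |y i| * 10 ^ (e j) :=
          Finset.sum_le_sum fun i hi => h1 i (Finset.ne_of_mem_erase hi)
      _ ≤ ∑ i, |y i| * 10 ^ (e j) :=
          Finset.sum_le_sum_of_subset_of_nonneg (Finset.erase_subset _ _)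
            (fun i _ _ => by positivity)
      _ = (∑ i, |y i|) * 10 ^ (e j) := (Finset.sum_mul _ _ _).symm
  have h7 : (0 : ℤ) < 10 ^ (e j) := by positivity
  nlinarith

/-- pigeonhole for frequently -/
lemma freq_fin {α : Type} [Finite α] {p : ℕ → α → Prop} (h : ∃ᶠ n in atTop, ∃ a, p n a) :
    ∃ a, ∃ᶠ n in atTop, p n a := by
  by_contra hcon
  push Not at hcon
  have h2 := (Filter.eventually_all).2 hcon
  refine h (h2.mono fun n hn => ?_)
  rintro ⟨a, ha⟩
  exact hn a ha

lemma claim_zero {ε : ℝ} (hε : ε * Real.log 10 < Real.log 2) (m : ℕ → ℕ)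
    (hmε : ∀ n, (m n : ℝ) ≤ ε * n) (lam : Fin 0 → ℤ) :
    ∀ᶠ n in atTop, ∀ (T : ℤ) (e : Fin 0 → ℕ), ¬ Rep m lam n T e := by
  have h1 : ∀ᶠ n : ℕ in atTop, Real.log 2 < n * (Real.log 2 - ε * Real.log 10) :=
    (tendsto_natCast_atTop_atTop.atTop_mul_const (sub_pos.2 hε)).eventually_gt_atTop _
  refine h1.mono (fun n hn => ?_)
  rintro T e ⟨hT1, hT2, _, hT3⟩
  rw [Fin.sum_univ_zero, add_zero] at hT3
  have hT0 : T ≠ 0 := by
    rintro rfl
    exact hT2 (dvd_zero _)
  have h2 : (2 : ℤ) ^ n ≤ |T| := Int.le_of_dvd (abs_pos.2 hT0) ((dvd_abs _ _).2 hT3)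
  have h3 : (2 : ℝ) ^ n ≤ |(T : ℝ)| := by exact_mod_cast h2
  have h4 : (2 : ℝ) * 10 ^ (m n) < 2 ^ n := by
    have hl : 0 < Real.log 10 := Real.log_pos (by norm_num)
    have e1 : (2 : ℝ) * 10 ^ (m n) = Real.exp (Real.log 2 + m n * Real.log 10) := by
      rw [Real.exp_add, Real.exp_log (by norm_num), Real.exp_nat_mul, Real.exp_log (by norm_num)]
    have e2 : (2 : ℝ) ^ n = Real.exp (n * Real.log 2) := by
      rw [Real.exp_nat_mul, Real.exp_log (by norm_num)]
    rw [e1, e2]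
    apply Real.exp_lt_exp.2
    have h5 := mul_le_mul_of_nonneg_right (hmε n) hl.le
    nlinarith
  linarith

lemma grid {s n N : ℕ} (hn : 0 < n) (hN : 0 < N) (e : Fin s → ℕ) (he : ∀ i, e i ≤ n) :
    ∃ j : Fin s → Fin (N + 1), ∀ i, (e i : ℝ) ≤ ((j i : ℕ) : ℝ) / N * n ∧
      ((j i : ℕ) : ℝ) / N * n ≤ e i + n / N := by
  have hn' : (0 : ℝ) < n := by exact_mod_cast hn
  have hN' : (0 : ℝ) < N := by exact_mod_cast hN
  refine ⟨fun i => ⟨⌈(e i : ℝ) * N / n⌉₊, ?_⟩, fun i => ⟨?_, ?_⟩⟩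
  · rw [Nat.lt_succ_iff, Nat.ceil_le, div_le_iff₀ hn', mul_comm]
    exact mul_le_mul_of_nonneg_left (by exact_mod_cast he i) hN'.le
  · show (e i : ℝ) ≤ ((⌈(e i : ℝ) * N / n⌉₊ : ℕ) : ℝ) / N * n
    have := Nat.le_ceil ((e i : ℝ) * N / n)
    rw [div_le_iff₀ hn'] at this
    rw [div_mul_eq_mul_div, le_div_iff₀ hN']
    exact this
  · show ((⌈(e i : ℝ) * N / n⌉₊ : ℕ) : ℝ) / N * n ≤ e i + n / N
    have h1 := (Nat.ceil_lt_add_one (show 0 ≤ (e i : ℝ) * N / n by positivity)).le
    calc ((⌈(e i : ℝ) * N / n⌉₊ : ℕ) : ℝ) / N * n ≤ ((e i : ℝ) * N / n + 1) / N * n := by gcongr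
      _ = e i + n / N := by field_simp

lemma merge {m : ℕ → ℕ} {s : ℕ} {lam : Fin (s + 1) → ℤ} {n : ℕ} {T : ℤ} {e : Fin (s + 1) → ℕ}
    {i j : Fin (s + 1)} (hij : i ≠ j) {d : ℕ} (hd : e j = e i + d) (h : Rep m lam n T e) :
    Rep m (fun k : Fin s => lam (j.succAbove k) + if j.succAbove k = i then lam j * 10 ^ d else 0) n T
      (fun k => e (j.succAbove k)) := by
  obtain ⟨h1, h2, h3, h4⟩ := h
  refine ⟨h1, h2, fun k => h3 _, ?_⟩
  have e1 : ∑ k : Fin s, (lam (j.succAbove k) + if j.succAbove k = i then lam j * 10 ^ d else 0) *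
      10 ^ (e (j.succAbove k)) = ∑ l, lam l * 10 ^ (e l) := by
    obtain ⟨k0, hk0⟩ := Fin.exists_succAbove_eq hij
    rw [Fin.sum_univ_succAbove _ j]
    simp only [add_mul]
    rw [Finset.sum_add_distrib, add_comm]
    congr 1
    rw [Finset.sum_eq_single k0]
    · rw [if_pos hk0, hk0, hd, pow_add]
      ring
    · intro k _ hk
      rw [if_neg, zero_mul]
      intro h5
      exact hk (Fin.succAbove_right_injective (h5.trans hk0.symm))
    · intro h5
      exact absurd (Finset.mem_univ _) h5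
  rw [e1]
  exact h4

theorem claim {ε : ℝ} (hε : ε * Real.log 10 < Real.log 2) (m : ℕ → ℕ)
    (hm : Tendsto m atTop atTop) (hmε : ∀ n, (m n : ℝ) ≤ ε * n) :
    ∀ (s : ℕ) (lam : Fin s → ℤ), ∀ᶠ n in atTop, ∀ (T : ℤ) (e : Fin s → ℕ), ¬ Rep m lam n T e := by
  intro s
  induction s with
  | zero => exact claim_zero hε m hmε
  | succ s ih =>
    intro lam
    by_contra hcon
    rw [Filter.not_eventually] at hcon
    push Not at hcon
    have hl : 0 < Real.log 10 := Real.log_pos (by norm_num)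
    obtain ⟨δ, hδ⟩ : ∃ δ, δ = Real.log 2 / Real.log 10 - ε := ⟨_, rfl⟩
    have hδ0 : 0 < δ := by
      rw [hδ, sub_pos, lt_div_iff₀ hl]
      exact hε
    obtain ⟨N, hN0, hN⟩ : ∃ N : ℕ, 0 < N ∧ ((s : ℝ) + 1) / N ≤ δ / 2 := by
      refine ⟨⌈2 * ((s : ℝ) + 1) / δ⌉₊ + 1, Nat.succ_pos _, ?_⟩
      have h1 := Nat.le_ceil (2 * ((s : ℝ) + 1) / δ)
      rw [div_le_iff₀ hδ0] at h1
      rw [div_le_iff₀ (by positivity)]
      push_cast
      nlinarith
    have hNR : (0 : ℝ) < N := by exact_mod_cast hN0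
    -- the grid
    have h1 : ∃ᶠ n in atTop, ∃ j : Fin (s + 1) → Fin (N + 1), ∃ z : ℤ × (Fin (s + 1) → ℕ),
        Rep m lam n z.1 z.2 ∧ ∀ i, (z.2 i : ℝ) ≤ ((j i : ℕ) : ℝ) / N * n ∧
          ((j i : ℕ) : ℝ) / N * n ≤ z.2 i + n / N := by
      refine (hcon.and_eventually (eventually_gt_atTop 0)).mono ?_
      rintro n ⟨⟨T, e, hR⟩, hn⟩
      obtain ⟨j, hj⟩ := grid hn hN0 e (fun i => (hR.2.2.1 i).2)
      exact ⟨j, (T, e), hR, hj⟩
    obtain ⟨j, h2⟩ := freq_fin h1
    obtain ⟨Q, hQ⟩ : ∃ Q : ℕ → ℤ × (Fin (s + 1) → ℕ) → Prop, Q = fun n z =>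
        Rep m lam n z.1 z.2 ∧ ∀ i, (z.2 i : ℝ) ≤ ((j i : ℕ) : ℝ) / N * n ∧
          ((j i : ℕ) : ℝ) / N * n ≤ z.2 i + n / N := ⟨_, rfl⟩
    have h3 : ∃ᶠ n in atTop, ∃ z, Q n z := by rw [hQ]; exact h2
    obtain ⟨F, hF⟩ : ∃ F : ℕ → ℤ × (Fin (s + 1) → ℕ), ∀ n, (∃ z, Q n z) → Q n (F n) := by
      classical
      refine ⟨fun n => if h : ∃ z, Q n z then h.choose else (0, fun _ => 0), fun n h => ?_⟩
      show Q n (if h : ∃ z, Q n z then h.choose else (0, fun _ => 0))
      rw [dif_pos h]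
      exact h.choose_spec
    have hF1 : ∀ n, (∃ z, Q n z) → Rep m lam n (F n).1 (F n).2 := fun n h => by
      have := hF n h
      rw [hQ] at this
      exact this.1
    have hF2 : ∀ n, (∃ z, Q n z) → ∀ i, ((F n).2 i : ℝ) ≤ ((j i : ℕ) : ℝ) / N * n ∧
          ((j i : ℕ) : ℝ) / N * n ≤ (F n).2 i + n / N := fun n h => by
      have := hF n h
      rw [hQ] at this
      exact this.2
    obtain ⟨y, hy, hfr⟩ := Pool.Agent.R333.SubR.sub_real (n := s + 1 + 1) (by omega) 10 (by norm_num)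
      (Fin.snoc (α := fun _ => Fin (s + 1 + 1) → ℝ)
        (fun i => Fin.snoc (α := fun _ => ℝ) (fun k => if i = k then (1 : ℝ) else 0) 0)
        (Fin.snoc (α := fun _ => ℝ) (fun k => -(lam k : ℝ)) 1))
      (by
        intro i k
        refine Fin.lastCases ?_ (fun i => ?_) i
        · rw [Fin.snoc_last]
          refine Fin.lastCases ?_ (fun k => ?_) k
          · rw [Fin.snoc_last]; exact isAlgebraic_one
          · rw [Fin.snoc_castSucc]; exact (isAlgebraic_intCast (lam k)).neg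
        · rw [Fin.snoc_castSucc]
          refine Fin.lastCases ?_ (fun k => ?_) k
          · rw [Fin.snoc_last]; exact isAlgebraic_zero
          · rw [Fin.snoc_castSucc]
            split_ifs
            · exact isAlgebraic_one
            · exact isAlgebraic_zero)
      (by
        intro i k
        refine Fin.lastCases ?_ (fun i => ?_) i
        · intro h
          exact absurd h (not_lt.2 (Fin.le_last k))
        · rw [Fin.snoc_castSucc]
          refine Fin.lastCases ?_ (fun k => ?_) k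
          · intro _
            rw [Fin.snoc_last]
          · intro h
            rw [Fin.snoc_castSucc, if_neg]
            rintro rfl
            exact lt_irrefl _ h)
      (by
        intro i
        refine Fin.lastCases ?_ (fun i => ?_) i
        · rw [Fin.snoc_last, Fin.snoc_last]; exact one_ne_zero
        · rw [Fin.snoc_castSucc, Fin.snoc_castSucc, if_pos rfl]; exact one_ne_zero)
      (fun n => ∃ z, Q n z) h3
      (fun n => Fin.snoc (α := fun _ => ℤ) (fun i => 10 ^ ((F n).2 i))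
        ((F n).1 + ∑ i, lam i * 10 ^ ((F n).2 i)))
      (by
        intro n _ h
        have := congrFun h (Fin.castSucc 0)
        rw [Fin.snoc_castSucc] at this
        exact absurd this (pow_ne_zero _ (by norm_num)))
      (fun n => Fin.snoc (α := fun _ => ℕ) (fun i => 10 ^ ((F n).2 i)) (2 ^ n)) 1
      (by
        intro n l hn
        rw [one_mul]
        refine Fin.lastCases ?_ (fun i => ?_) l
        · rw [Fin.snoc_last]
          exact pow_dvd_pow_of_dvd (by norm_num) n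
        · rw [Fin.snoc_castSucc]
          exact pow_dvd_pow _ ((hF1 n hn).2.2.1 i).2)
      (by
        intro n l hn
        refine Fin.lastCases ?_ (fun i => ?_) l
        · rw [Fin.snoc_last, Fin.snoc_last]
          push_cast
          exact (hF1 n hn).2.2.2
        · rw [Fin.snoc_castSucc, Fin.snoc_castSucc]
          push_cast
          exact dvd_rfl)
      (Fin.snoc (α := fun _ => ℝ) (fun i => ((j i : ℕ) : ℝ) / N) ε) 2 (by norm_num)
      (by
        intro n l hn
        refine Fin.lastCases ?_ (fun i => ?_) l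
        · rw [Fin.snoc_last, Fin.snoc_last, Fin.sum_univ_castSucc]
          simp only [Fin.snoc_castSucc, Fin.snoc_last]
          have e1 : ∑ i : Fin (s + 1), -(lam i : ℝ) * ((10 ^ ((F n).2 i) : ℤ) : ℝ) +
              1 * (((F n).1 + ∑ i, lam i * 10 ^ ((F n).2 i) : ℤ) : ℝ) = (((F n).1 : ℤ) : ℝ) := by
            push_cast
            simp only [neg_mul, Finset.sum_neg_distrib]
            ring
          rw [e1]
          refine (hF1 n hn).1.trans ?_
          refine mul_le_mul_of_nonneg_left ?_ (by norm_num)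
          have h5 : (10 : ℝ) ^ ((m n : ℕ) : ℝ) ≤ 10 ^ (ε * n) :=
            Real.rpow_le_rpow_of_exponent_le (by norm_num) (hmε n)
          rw [Real.rpow_natCast] at h5
          have e2 : ((10 : ℕ) : ℝ) = 10 := by norm_num
          rw [e2]
          exact h5
        · rw [Fin.snoc_castSucc, Fin.snoc_castSucc, Fin.sum_univ_castSucc]
          simp only [Fin.snoc_castSucc, Fin.snoc_last, ite_mul, one_mul, zero_mul, add_zero,
            Finset.sum_ite_eq, Finset.mem_univ, if_true]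
          push_cast
          rw [abs_of_pos (by positivity), ← Real.rpow_natCast]
          have h5 : (10 : ℝ) ^ (((F n).2 i : ℕ) : ℝ) ≤ 10 ^ (((j i : ℕ) : ℝ) / N * n) :=
            Real.rpow_le_rpow_of_exponent_le (by norm_num) (hF2 n hn i).1
          have h6 : (0 : ℝ) < 10 ^ (((j i : ℕ) : ℝ) / N * n) := by positivity
          linarith)
      (δ / 2) (by positivity)
      (by
        intro n hn
        have eA : ∑ l : Fin (s + 1 + 1), (Fin.snoc (α := fun _ => ℝ)
            (fun i : Fin (s + 1) => ((j i : ℕ) : ℝ) / N) ε : Fin (s + 1 + 1) → ℝ) l =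
            ∑ i : Fin (s + 1), ((j i : ℕ) : ℝ) / N + ε := by
          rw [Fin.sum_univ_castSucc]
          simp only [Fin.snoc_castSucc, Fin.snoc_last]
        have eB : ∑ l : Fin (s + 1 + 1), Real.log ((Fin.snoc (α := fun _ => ℕ)
            (fun i : Fin (s + 1) => 10 ^ ((F n).2 i)) (2 ^ n) l : ℕ) : ℝ) =
            ∑ i : Fin (s + 1), ((F n).2 i : ℝ) * Real.log 10 + n * Real.log 2 := by
          rw [Fin.sum_univ_castSucc]
          simp only [Fin.snoc_castSucc, Fin.snoc_last]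
          push_cast
          simp only [Real.log_pow]
        rw [eA, eB]
        push_cast
        have h5 : ∑ i : Fin (s + 1), ((j i : ℕ) : ℝ) / N * n ≤
            ∑ i : Fin (s + 1), (((F n).2 i : ℝ) + n / N) :=
          Finset.sum_le_sum fun i _ => (hF2 n hn i).2
        rw [← Finset.sum_mul, Finset.sum_add_distrib, Finset.sum_const, Finset.card_univ,
          Fintype.card_fin, nsmul_eq_mul] at h5
        push_cast at h5
        have h6 : ((s : ℝ) + 1) * (n / N) ≤ δ / 2 * n := by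
          calc ((s : ℝ) + 1) * (n / N) = ((s : ℝ) + 1) / N * n := by ring
            _ ≤ δ / 2 * n := mul_le_mul_of_nonneg_right hN (Nat.cast_nonneg _)
        have h7 : (ε + δ) * Real.log 10 = Real.log 2 := by
          rw [hδ]
          field_simp
          ring
        rw [← Finset.sum_mul]
        calc (∑ i : Fin (s + 1), ((j i : ℕ) : ℝ) / N + ε + δ / 2) * n * Real.log 10 =
              ((∑ i : Fin (s + 1), ((j i : ℕ) : ℝ) / N) * n + (ε + δ / 2) * n) * Real.log 10 := by ring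
          _ ≤ ((∑ i : Fin (s + 1), ((F n).2 i : ℝ)) + (ε + δ) * n) * Real.log 10 := by
            apply mul_le_mul_of_nonneg_right _ hl.le
            linarith
          _ = (∑ i : Fin (s + 1), ((F n).2 i : ℝ)) * Real.log 10 + n * ((ε + δ) * Real.log 10) := by
            ring
          _ = _ := by rw [h7])
    have hfr' : ∃ᶠ n in atTop, (∃ z, Q n z) ∧ ∑ i : Fin (s + 1), y (Fin.castSucc i) * 10 ^ ((F n).2 i) +
        y (Fin.last _) * ((F n).1 + ∑ i, lam i * 10 ^ ((F n).2 i)) = 0 := by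
      refine hfr.mono ?_
      rintro n ⟨h5, h6⟩
      rw [Fin.sum_univ_castSucc] at h6
      simp only [Fin.snoc_castSucc, Fin.snoc_last] at h6
      exact ⟨h5, h6⟩
    by_cases hyl : y (Fin.last _) = 0
    · -- two exponents are close
      have hy' : (fun i : Fin (s + 1) => y (Fin.castSucc i)) ≠ 0 := by
        intro h
        apply hy
        funext l
        refine Fin.lastCases ?_ (fun i => ?_) l
        · exact hyl
        · exact congrFun h i
      obtain ⟨c, hc⟩ : ∃ c : ℕ, ∑ i : Fin (s + 1), |y (Fin.castSucc i)| < 10 ^ c :=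
        pow_unbounded_of_one_lt _ (by norm_num)
      have h5 : ∃ᶠ n in atTop, ∃ q : Fin (s + 1) × Fin (s + 1) × Fin (c + 1),
          q.1 ≠ q.2.1 ∧ (F n).2 q.2.1 = (F n).2 q.1 + (q.2.2 : ℕ) ∧ Rep m lam n (F n).1 (F n).2 := by
        refine hfr'.mono ?_
        rintro n ⟨h6, h7⟩
        rw [hyl, zero_mul, add_zero] at h7
        obtain ⟨i, k, hik, h8, h9⟩ := close _ hy' c hc _ h7
        exact ⟨(i, k, ⟨(F n).2 k - (F n).2 i, by omega⟩), hik, by
          show (F n).2 k = (F n).2 i + ((F n).2 k - (F n).2 i)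
          omega, hF1 n h6⟩
      obtain ⟨q, hq⟩ := freq_fin h5
      have h6 := ih (fun k : Fin s => lam (q.2.1.succAbove k) +
        if q.2.1.succAbove k = q.1 then lam q.2.1 * 10 ^ (q.2.2 : ℕ) else 0)
      obtain ⟨n, ⟨h7, h8, h9⟩, h10⟩ := (hq.and_eventually h6).exists
      exact h10 _ _ (merge h7 h8 h9)
    · -- divisibility by powers of 5
      have h5 : ∀ᶠ n in atTop, |y (Fin.last _)| < 5 ^ (m n) := by
        obtain ⟨c, hc⟩ : ∃ c : ℕ, |y (Fin.last _)| < 5 ^ c :=
          pow_unbounded_of_one_lt _ (by norm_num)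
        refine (hm.eventually_ge_atTop c).mono (fun n hn => ?_)
        exact hc.trans_le (pow_le_pow_right₀ (by norm_num) hn)
      obtain ⟨n, ⟨h6, h7⟩, h8⟩ := (hfr'.and_eventually h5).exists
      have hR := hF1 n h6
      have h9 : (5 : ℤ) ^ (m n) ∣ y (Fin.last _) * (F n).1 := by
        have e1 : y (Fin.last _) * (F n).1 =
            -∑ i : Fin (s + 1), (y (Fin.castSucc i) + y (Fin.last _) * lam i) * 10 ^ ((F n).2 i) := by
          simp only [add_mul, Finset.sum_add_distrib, mul_assoc, ← Finset.mul_sum]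
          linear_combination h7
        rw [e1, dvd_neg]
        refine Finset.dvd_sum (fun i _ => Dvd.dvd.mul_left ?_ _)
        exact (pow_dvd_pow_of_dvd (by norm_num) _).trans (pow_dvd_pow (10 : ℤ) (hR.2.2.1 i).1)
      have h10 : IsCoprime ((5 : ℤ) ^ (m n)) (F n).1 := by
        apply IsCoprime.pow_left
        exact (Int.prime_iff_natAbs_prime.2 (by norm_num)).coprime_iff_not_dvd.2 hR.2.1
      have h11 := h10.dvd_of_dvd_mul_right h9
      have h12 := Int.le_of_dvd (abs_pos.2 hyl) ((dvd_abs _ _).2 h11)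
      omega

end Pool.Agent.W2helper19.DG
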