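import Pool.Agent.W2helper19.DG.Core

/-! Digits 1, 2 and divisibility by `2 ^ n`: changes of digits. -/

set_option autoImplicit false

open Finset Filter Topology

namespace Pool.Agent.W2helper19.DG

/-- the decimal digit of `t` at position `k` -/
def dg (t k : ℕ) : ℕ := t / 10 ^ k % 10

/-- the last `n` digits of `t` are 1 or 2, and `2 ^ n` divides `t` -/
def Good (t n : ℕ) : Prop := (∀ k < n, dg t k = 1 ∨ dg t k = 2) ∧ 2 ^ n ∣ t

lemma Good.mono {t n m : ℕ} (h : Good t n) (hm : m ≤ n) : Good t m :=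
  ⟨fun k hk => h.1 k (by omega), (pow_dvd_pow 2 hm).trans h.2⟩

lemma mod_succ (t k : ℕ) : t % 10 ^ (k + 1) = t % 10 ^ k + 10 ^ k * dg t k :=
  Nat.mod_pow_succ

lemma sum_dg (t m r : ℕ) : ((t % 10 ^ (m + r) : ℕ) : ℤ) =
    ((t % 10 ^ m : ℕ) : ℤ) + ∑ k ∈ range r, (dg t (m + k) : ℤ) * 10 ^ (m + k) := by
  induction r with
  | zero => simp
  | succ r ih =>
    rw [Finset.sum_range_succ, ← add_assoc, ← add_assoc, mod_succ, Nat.cast_add, ih]
    push_cast
    ring

lemma abel (f : ℕ → ℤ) (m r : ℕ) : 9 * ∑ k ∈ range (r + 1), f (m + k) * 10 ^ (m + k) =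
    f (m + r) * 10 ^ (m + r + 1) - f m * 10 ^ m +
      ∑ k ∈ range r, (f (m + k) - f (m + k + 1)) * 10 ^ (m + k + 1) := by
  induction r with
  | zero => simp; ring
  | succ r ih =>
    rw [Finset.sum_range_succ, mul_add, ih, Finset.sum_range_succ (n := r)]
    have e : m + (r + 1) = m + r + 1 := by ring
    rw [e]
    ring

lemma nine_le {t n : ℕ} (h : Good t n) : ∀ m ≤ n, 9 * (t % 10 ^ m) ≤ 2 * (10 ^ m - 1) := by
  intro m
  induction m with
  | zero => intro _; simp [Nat.mod_one]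
  | succ m ih =>
    intro hm
    have h1 := ih (by omega)
    have h2 : dg t m ≤ 2 := by
      rcases h.1 m (by omega) with h | h <;> omega
    have h3 : 0 < 10 ^ m := by positivity
    have h4 : 10 ^ m * dg t m ≤ 10 ^ m * 2 := Nat.mul_le_mul_left _ h2
    rw [mod_succ, pow_succ]
    omega

lemma not_five {t n m : ℕ} (h : Good t n) (hm : 1 ≤ m) (hmn : m ≤ n) :
    ¬ (5 : ℤ) ∣ ((9 * (t % 10 ^ m) : ℕ) : ℤ) := by
  intro h5
  have h6 : 5 ∣ 9 * (t % 10 ^ m) := by exact_mod_cast h5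
  have h7 : 5 ∣ t % 10 ^ m := (Nat.Coprime.dvd_mul_left (by norm_num)).1 h6
  have h8 : 5 ∣ t := (Nat.dvd_mod_iff ((by norm_num : 5 ∣ 10).trans (dvd_pow_self 10 (by omega)))).1 h7
  have h9 : dg t 0 = 1 ∨ dg t 0 = 2 := h.1 0 (by omega)
  unfold dg at h9
  rw [pow_zero, Nat.div_one] at h9
  omega

/-- the positions in the window at which the digit changes, counted from the start of the window -/
def Cw (t m r : ℕ) : Finset ℕ := (range r).filter (fun k => dg t (m + k) ≠ dg t (m + k + 1))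

lemma rep_of_good {m : ℕ → ℕ} {t n r : ℕ} (h : Good t n) (hm : 1 ≤ m n) (hn : n = m n + r + 1) :
    ∃ (lam : Fin ((Cw t (m n) r).card + 1) → ℤ) (T : ℤ)
      (e : Fin ((Cw t (m n) r).card + 1) → ℕ), (∀ i, lam i ∈ Icc (-2 : ℤ) 2) ∧ Rep m lam n T e := by
  obtain ⟨S, hS⟩ : ∃ S, S = Cw t (m n) r := ⟨_, rfl⟩
  rw [← hS]
  let u : Fin S.card → ℕ := fun i => S.orderEmbOfFin rfl i
  have hu : ∀ i, u i ∈ S := fun i => S.orderEmbOfFin_mem rfl i
  have hsum : ∀ f : ℕ → ℤ, ∑ i, f (u i) = ∑ k ∈ S, f k := by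
    intro f
    have h2 := Finset.sum_map (Finset.univ : Finset (Fin S.card)) (S.orderEmbOfFin rfl).toEmbedding f
    rw [Finset.map_orderEmbOfFin_univ] at h2
    exact h2.symm
  have hd : ∀ k < n, (dg t k : ℤ) = 1 ∨ (dg t k : ℤ) = 2 := by
    intro k hk
    rcases h.1 k hk with h | h <;> rw [h] <;> simp
  have hur : ∀ i, u i < r := by
    intro i
    have := hu i
    rw [hS, Cw, Finset.mem_filter, Finset.mem_range] at this
    exact this.1
  refine ⟨Fin.cons (-(dg t (m n) : ℤ)) (fun i => (dg t (m n + u i) : ℤ) - dg t (m n + u i + 1)),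
    ((9 * (t % 10 ^ (m n)) : ℕ) : ℤ), Fin.cons (m n) (fun i => m n + u i + 1), ?_, ?_, ?_, ?_, ?_⟩
  · intro i
    rw [Finset.mem_Icc]
    refine Fin.cases ?_ (fun i => ?_) i
    · rw [Fin.cons_zero]
      rcases hd (m n) (by omega) with h1 | h1 <;> rw [h1] <;> norm_num
    · rw [Fin.cons_succ]
      have := hur i
      rcases hd (m n + u i) (by omega) with h1 | h1 <;>
        rcases hd (m n + u i + 1) (by omega) with h2 | h2 <;> rw [h1, h2] <;> norm_num
  · have h1 := nine_le h (m n) (by omega)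
    have h2 : 9 * (t % 10 ^ (m n)) ≤ 2 * 10 ^ (m n) := by omega
    have h3 : ((9 * (t % 10 ^ (m n)) : ℕ) : ℝ) ≤ 2 * 10 ^ (m n) := by exact_mod_cast h2
    rw [Int.cast_natCast, abs_of_nonneg (Nat.cast_nonneg _)]
    exact h3
  · exact not_five h hm (by omega)
  · intro i
    refine Fin.cases ?_ (fun i => ?_) i
    · rw [Fin.cons_zero]
      omega
    · rw [Fin.cons_succ]
      have := hur i
      omega
  · rw [Fin.sum_univ_succ]
    simp only [Fin.cons_zero, Fin.cons_succ]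
    have e1 : ∑ i : Fin S.card, ((dg t (m n + u i) : ℤ) - dg t (m n + u i + 1)) * 10 ^ (m n + u i + 1) =
        ∑ k ∈ range r, ((dg t (m n + k) : ℤ) - dg t (m n + k + 1)) * 10 ^ (m n + k + 1) := by
      rw [hsum (fun k => ((dg t (m n + k) : ℤ) - dg t (m n + k + 1)) * 10 ^ (m n + k + 1)), hS, Cw]
      refine Finset.sum_filter_of_ne (fun k _ hk hc => hk ?_)
      rw [hc, sub_self, zero_mul]
    rw [e1]
    have e2 := abel (fun k => (dg t k : ℤ)) (m n) r
    have e3 := sum_dg t (m n) (r + 1)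
    rw [← add_assoc, ← hn] at e3
    have e4 : ((9 * (t % 10 ^ (m n)) : ℕ) : ℤ) + (-(dg t (m n) : ℤ) * 10 ^ (m n) +
        ∑ k ∈ range r, ((dg t (m n + k) : ℤ) - dg t (m n + k + 1)) * 10 ^ (m n + k + 1)) =
        9 * ((t % 10 ^ n : ℕ) : ℤ) - (dg t (m n + r) : ℤ) * 10 ^ (m n + r + 1) := by
      rw [e3]
      push_cast
      linear_combination -e2
    rw [e4]
    have h2n : (2 : ℕ) ^ n ∣ 10 ^ n := pow_dvd_pow_of_dvd (by norm_num) n
    have h3 : 2 ^ n ∣ t % 10 ^ n := (Nat.dvd_mod_iff h2n).2 h.2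
    refine dvd_sub (Dvd.dvd.mul_left ?_ _) (Dvd.dvd.mul_left ?_ _)
    · exact_mod_cast h3
    · rw [← hn]
      exact_mod_cast h2n

/-- the number of changes in the window tends to infinity -/
theorem window {ε : ℝ} (hε : ε * Real.log 10 < Real.log 2) (m : ℕ → ℕ)
    (hm : Tendsto m atTop atTop) (hmε : ∀ n, (m n : ℝ) ≤ ε * n) (K : ℕ) :
    ∀ᶠ n in atTop, ∀ t r : ℕ, Good t n → n = m n + r + 1 → K < (Cw t (m n) r).card := by
  have h1 : ∀ᶠ n in atTop, ∀ s ∈ range (K + 1), ∀ lam ∈ Fintype.piFinset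
      (fun _ : Fin (s + 1) => Icc (-2 : ℤ) 2), ∀ (T : ℤ) (e : Fin (s + 1) → ℕ), ¬ Rep m lam n T e :=
    (Filter.eventually_all_finset _).2 fun s _ =>
      (Filter.eventually_all_finset _).2 fun lam _ => claim hε m hm hmε (s + 1) lam
  filter_upwards [h1, hm.eventually_ge_atTop 1] with n h2 h3 t r hg hn
  by_contra hcon
  push Not at hcon
  obtain ⟨lam, T, e, h4, h5⟩ := rep_of_good hg h3 hn
  exact h2 _ (Finset.mem_range.2 (by omega)) lam (Fintype.mem_piFinset.2 h4) T e h5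

end Pool.Agent.W2helper19.DG
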