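import Pool.Agent.W2helper19.DG.Digits

/-! Digits 1, 2 and divisibility by `2 ^ n`: growth of the number of changes, counts of digits. -/

set_option autoImplicit false

open Finset Filter Topology

namespace Pool.Agent.W2helper19.DG

/-- the number of changes between consecutive digits among the last `n` digits -/
def Ch (t n : ℕ) : ℕ := ((range (n - 1)).filter (fun k => dg t k ≠ dg t (k + 1))).card

lemma ch_add (t m r : ℕ) : Ch t m + (Cw t m r).card ≤ Ch t (m + r + 1) := by
  unfold Ch Cw
  rw [← Finset.card_map (s := (range r).filter (fun k => dg t (m + k) ≠ dg t (m + k + 1)))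
    (addLeftEmbedding m), ← Finset.card_union_of_disjoint]
  · apply Finset.card_le_card
    intro k hk
    rw [Finset.mem_union, Finset.mem_filter, Finset.mem_range, Finset.mem_map] at hk
    rw [Finset.mem_filter, Finset.mem_range]
    rcases hk with ⟨h1, h2⟩ | ⟨l, hl, rfl⟩
    · exact ⟨by omega, h2⟩
    · rw [Finset.mem_filter, Finset.mem_range] at hl
      refine ⟨?_, hl.2⟩
      rw [addLeftEmbedding_apply]
      omega
  · rw [Finset.disjoint_left]
    intro k hk hk2
    rw [Finset.mem_filter, Finset.mem_range] at hk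
    rw [Finset.mem_map] at hk2
    obtain ⟨l, _, rfl⟩ := hk2
    rw [addLeftEmbedding_apply] at hk
    omega

lemma quarter (K : ℕ) : ∃ N : ℕ, 0 < N ∧ ∀ n, N ≤ n → ∀ t, Good t n → Ch t (n / 4) + K ≤ Ch t n := by
  have hε : (1 / 4 : ℝ) * Real.log 10 < Real.log 2 := by
    have h1 : Real.log 10 < Real.log (2 ^ 4) := Real.log_lt_log (by norm_num) (by norm_num)
    rw [Real.log_pow] at h1
    push_cast at h1
    linarith
  have h1 := window hε (fun n => n / 4) (Nat.tendsto_div_const_atTop (by norm_num))
    (fun n => by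
      have := @Nat.cast_div_le ℝ _ _ _ n 4
      push_cast at this
      linarith) K
  obtain ⟨N, hN⟩ := Filter.eventually_atTop.1 h1
  refine ⟨N + 2, by omega, fun n hn t hg => ?_⟩
  obtain ⟨r, hr⟩ : ∃ r, n = n / 4 + r + 1 := ⟨n - n / 4 - 1, by omega⟩
  have h2 := hN n (by omega) t r hg hr
  have h3 := ch_add t (n / 4) r
  rw [← hr] at h3
  exact (Nat.add_le_add_left h2.le _).trans h3

lemma growth {K N : ℕ} (hN : ∀ n, N ≤ n → ∀ t, Good t n → Ch t (n / 4) + K ≤ Ch t n) :
    ∀ j n t : ℕ, N * 4 ^ j ≤ n → Good t n → j * K ≤ Ch t n := by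
  intro j
  induction j with
  | zero => intro n t _ _; simp
  | succ j ih =>
    intro n t hn hg
    have h1 : N * 4 ^ j ≤ n / 4 := by
      rw [Nat.le_div_iff_mul_le (by norm_num)]
      calc N * 4 ^ j * 4 = N * 4 ^ (j + 1) := by ring
        _ ≤ n := hn
    have h2 := ih (n / 4) t h1 (hg.mono (Nat.div_le_self _ _))
    have h3 : N ≤ n := by
      refine le_trans ?_ hn
      exact Nat.le_mul_of_pos_right N (by positivity)
    have h4 := hN n h3 t hg
    rw [Nat.succ_mul]
    omega

lemma ch_le {t n a : ℕ} (ha : a = 1 ∨ a = 2) (h : Good t n) :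
    Ch t n ≤ 2 * ((range n).filter (fun k => dg t k = a)).card := by
  classical
  have h1 : (range (n - 1)).filter (fun k => dg t k ≠ dg t (k + 1)) ⊆
      (range (n - 1)).filter (fun k => dg t k = a) ∪
        (range (n - 1)).filter (fun k => dg t (k + 1) = a) := by
    intro k hk
    rw [Finset.mem_filter, Finset.mem_range] at hk
    rw [Finset.mem_union, Finset.mem_filter, Finset.mem_filter, Finset.mem_range]
    have h2 := h.1 k (by omega)
    have h3 := h.1 (k + 1) (by omega)
    omega
  have h2 : ((range (n - 1)).filter (fun k => dg t k = a)).card ≤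
      ((range n).filter (fun k => dg t k = a)).card :=
    Finset.card_le_card (Finset.filter_subset_filter _ (Finset.range_subset_range.2 (by omega)))
  have h3 : ((range (n - 1)).filter (fun k => dg t (k + 1) = a)).card ≤
      ((range n).filter (fun k => dg t k = a)).card := by
    refine Finset.card_le_card_of_injOn (fun k => k + 1) ?_ (fun x _ y _ hxy => Nat.succ_injective hxy)
    intro k hk
    rw [Finset.mem_coe, Finset.mem_filter, Finset.mem_range] at hk
    rw [Finset.mem_coe, Finset.mem_filter, Finset.mem_range]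
    refine ⟨?_, hk.2⟩
    show k + 1 < n
    omega
  unfold Ch
  have h4 := (Finset.card_le_card h1).trans (Finset.card_union_le _ _)
  omega

lemma count_eq (a : ℕ) : ∀ l : List ℕ,
    l.count a = ((range l.length).filter (fun k => l.getD k 0 = a)).card := by
  intro l
  induction l with
  | nil => simp
  | cons x l ih =>
    rw [Finset.card_filter, List.length_cons, Finset.sum_range_succ', List.count_cons, ih,
      Finset.card_filter]
    simp only [List.getD_cons_succ, List.getD_cons_zero, beq_iff_eq]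

lemma dg_eq (t k : ℕ) : dg t k = (Nat.digits 10 t).getD k 0 := (Nat.getD_digits t k (by norm_num)).symm

lemma good_of_digits {t n : ℕ} (hl : (Nat.digits 10 t).length = n)
    (hd : ∀ d ∈ Nat.digits 10 t, d = 1 ∨ d = 2) (h2 : 2 ^ n ∣ t) : Good t n := by
  refine ⟨fun k hk => ?_, h2⟩
  rw [dg_eq]
  apply hd
  rw [← hl] at hk
  rw [List.getD_eq_getElem _ _ hk]
  exact List.getElem_mem hk

lemma count_digits {t n : ℕ} (hl : (Nat.digits 10 t).length = n) (a : ℕ) :
    (Nat.digits 10 t).count a = ((range n).filter (fun k => dg t k = a)).card := by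
  rw [count_eq, hl]
  simp only [dg_eq]

/-- both digits occur more than `A log n` times -/
theorem counts (A : ℝ) : ∃ N : ℕ, ∀ n, N ≤ n → ∀ t : ℕ, Good t n → ∀ a, a = 1 ∨ a = 2 →
    A * Real.log n ≤ (((range n).filter (fun k => dg t k = a)).card : ℕ) := by
  obtain ⟨K, hK⟩ := exists_nat_ge (4 * |A| * Real.log 4)
  obtain ⟨N, hN0, hN⟩ := quarter K
  have hl4 : 0 < Real.log 4 := Real.log_pos (by norm_num)
  obtain ⟨N1, hN1⟩ := Filter.eventually_atTop.1 ((Real.tendsto_log_atTop.comp
    tendsto_natCast_atTop_atTop).eventually_ge_atTop (2 * (Real.log N + Real.log 4)))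
  refine ⟨max N (N1 + 1), fun n hn t hg a ha => ?_⟩
  have hn1 : N ≤ n := (le_max_left _ _).trans hn
  have hn2 : N1 ≤ n := (Nat.le_succ _).trans ((le_max_right _ _).trans hn)
  have hlog : 2 * (Real.log N + Real.log 4) ≤ Real.log n := hN1 n hn2
  -- the largest j
  obtain ⟨j, hj1, hj2⟩ : ∃ j : ℕ, N * 4 ^ j ≤ n ∧ n < N * 4 ^ (j + 1) := by
    refine ⟨Nat.log 4 (n / N), ?_, ?_⟩
    · have h1 : 4 ^ Nat.log 4 (n / N) ≤ n / N :=
        Nat.pow_log_le_self 4 (Nat.div_pos hn1 hN0).ne'
      rw [Nat.le_div_iff_mul_le hN0] at h1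
      rw [mul_comm]
      exact h1
    · have h1 : n / N < 4 ^ (Nat.log 4 (n / N) + 1) := Nat.lt_pow_succ_log_self (by norm_num) _
      rw [mul_comm]
      exact (Nat.div_lt_iff_lt_mul hN0).1 h1
  have h1 := (growth hN j n t hj1 hg).trans (ch_le ha hg)
  have h2 : ((j * K : ℕ) : ℝ) ≤ 2 * (((range n).filter (fun k => dg t k = a)).card : ℕ) := by
    exact_mod_cast h1
  have hNR : (0 : ℝ) < N := by exact_mod_cast hN0
  have hnR : (0 : ℝ) < n := by exact_mod_cast (lt_of_lt_of_le hN0 hn1)
  have h3 : Real.log n ≤ Real.log N + (j + 1) * Real.log 4 := by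
    have h4 : (n : ℝ) ≤ N * 4 ^ (j + 1) := by exact_mod_cast hj2.le
    have h5 := Real.log_le_log hnR h4
    rw [Real.log_mul hNR.ne' (by positivity), Real.log_pow] at h5
    push_cast at h5
    exact h5
  have hlN : 0 ≤ Real.log N := Real.log_nonneg (by exact_mod_cast hN0)
  have h4 : Real.log n ≤ 2 * (j * Real.log 4) := by nlinarith
  have h5 : A * Real.log n ≤ |A| * Real.log n :=
    mul_le_mul_of_nonneg_right (le_abs_self A) (by linarith)
  have h6 : |A| * Real.log n ≤ |A| * (2 * (j * Real.log 4)) :=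
    mul_le_mul_of_nonneg_left h4 (abs_nonneg A)
  have h7 : |A| * (2 * (j * Real.log 4)) = j * (4 * |A| * Real.log 4) / 2 := by ring
  have h8 : (j : ℝ) * (4 * |A| * Real.log 4) ≤ j * K := mul_le_mul_of_nonneg_left hK (Nat.cast_nonneg j)
  push_cast at h2
  linarith

end Pool.Agent.W2helper19.DG
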